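import Pool.Agent.Helper51.PF.Goals

/-! PF packet HSUM. -/

namespace Pool.Agent.Helper32.PF

open Finset

theorem sum_inv (p : ℕ) (hp : 2 ≤ p) : ∑ a ∈ Ico 1 p, (1 : ℝ) / a ≤ 1 + Real.log p := by
  have h1 : ∑ a ∈ Ico 1 p, (1 : ℝ) / a = (harmonic (p - 1) : ℝ) := by
    unfold harmonic
    push_cast
    rw [Finset.sum_Ico_eq_sum_range]
    exact sum_congr rfl fun i _ => by
      rw [one_div]
      push_cast
      rw [add_comm]
  rw [h1]
  refine (harmonic_le_one_add_log (p - 1)).trans ?_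
  have h2 : Real.log ((p - 1 : ℕ) : ℝ) ≤ Real.log p := by
    apply Real.log_le_log
    · exact_mod_cast (by omega : 0 < p - 1)
    · exact_mod_cast (by omega : p - 1 ≤ p)
  linarith

theorem g_hsum : Pool.Agent.Helper51.PF.G_HSUM := by
  intro p hp
  have h1 : ∑ a ∈ Ico 1 p, (p : ℝ) / (2 * (min a (p - a) : ℕ)) ≤
      ∑ a ∈ Ico 1 p, ((p : ℝ) / 2 * (1 / (a : ℝ)) + (p : ℝ) / 2 * (1 / ((p - a : ℕ) : ℝ))) := by
    refine sum_le_sum fun a ha => ?_
    rw [mem_Ico] at ha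
    have ha1 : (0 : ℝ) < a := by exact_mod_cast (by omega : 0 < a)
    have ha2 : (0 : ℝ) < ((p - a : ℕ) : ℝ) := by exact_mod_cast (by omega : 0 < p - a)
    have e : ∀ b : ℝ, (p : ℝ) / (2 * b) = (p : ℝ) / 2 * (1 / b) := by
      intro b
      rw [div_mul_div_comm, mul_one]
    rw [e]
    rcases le_total a (p - a) with h | h
    · rw [min_eq_left h]
      have : 0 ≤ (p : ℝ) / 2 * (1 / ((p - a : ℕ) : ℝ)) := by positivity
      linarith
    · rw [min_eq_right h]
      have : 0 ≤ (p : ℝ) / 2 * (1 / (a : ℝ)) := by positivity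
      linarith
  refine h1.trans ?_
  rw [sum_add_distrib, ← mul_sum, ← mul_sum]
  have h2 : ∑ a ∈ Ico 1 p, (1 : ℝ) / ((p - a : ℕ) : ℝ) = ∑ a ∈ Ico 1 p, (1 : ℝ) / a := by
    refine sum_nbij' (fun a => p - a) (fun a => p - a) ?_ ?_ ?_ ?_ ?_
    · intro a ha
      rw [mem_Ico] at ha ⊢
      omega
    · intro a ha
      rw [mem_Ico] at ha ⊢
      omega
    · intro a ha
      rw [mem_Ico] at ha
      omega
    · intro a ha
      rw [mem_Ico] at ha
      omega
    · intro a _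
      rfl
  rw [h2]
  have h3 := sum_inv p hp
  have h4 : (0 : ℝ) ≤ p := Nat.cast_nonneg p
  nlinarith

end Pool.Agent.Helper32.PF
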